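import Pool.Agent.Helper68.ES.St2

/-!
# Project ES (MP_cb927e_an), module AGE: young charges
-/

set_option autoImplicit false

open MeasureTheory Set Filter Topology
open scoped ENNReal RealInnerProductSpace

namespace Pool.Agent.Helper60.ES

open Pool.Agent.Helper68.ES Pool.Agent.Helper68.EP Pool.Agent.Helper20.RG
open Pool.Agent.Helper20.RL (RQ Rich BM Fml Hit)
open Pool.Agent.Helper68.LM (Pl BB Bd Av HL ft fm DQ)

private theorem tsum_age (a : ℤ) (G : ℕ) :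
    ∑' k : ℤ, (if a ≤ k ∧ k < a + G then (1 : ℝ≥0∞) else 0) = G := by
  rw [tsum_eq_sum (s := Finset.Ico a (a + G))]
  · rw [Finset.sum_ite_of_true]
    · simp
    · intro k hk
      exact Finset.mem_Ico.1 hk
  · intro k hk
    rw [if_neg]
    intro h
    exact hk (Finset.mem_Ico.2 h)

private theorem count_age (H₁ : Set Pl) (κ : Pl → ℤ) (G : ℕ)
    (hm : ∀ b : ℤ, MeasurableSet {z | z ∈ H₁ ∧ κ z ≤ b}) (hH : MeasurableSet H₁) :
    ∑' k : ℤ, volume {z | z ∈ H₁ ∧ κ z ≤ k ∧ k < κ z + G} = G * volume H₁ := by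
  have hA : ∀ k : ℤ, MeasurableSet {z | z ∈ H₁ ∧ κ z ≤ k ∧ k < κ z + G} := by
    intro k
    have h1 : {z | z ∈ H₁ ∧ κ z ≤ k ∧ k < κ z + G} =
        {z | z ∈ H₁ ∧ κ z ≤ k} \ {z | z ∈ H₁ ∧ κ z ≤ k - G} := by
      ext z
      simp only [Set.mem_ofPred_eq, mem_diff, not_and, not_le]
      constructor
      · rintro ⟨h1, h2, h3⟩
        exact ⟨⟨h1, h2⟩, fun _ => by omega⟩
      · rintro ⟨⟨h1, h2⟩, h3⟩
        exact ⟨h1, h2, by have := h3 h1; omega⟩
    rw [h1]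
    exact (hm k).diff (hm _)
  have h2 : ∀ k : ℤ, volume {z | z ∈ H₁ ∧ κ z ≤ k ∧ k < κ z + G} =
      ∫⁻ z in H₁, {z | z ∈ H₁ ∧ κ z ≤ k ∧ k < κ z + G}.indicator 1 z := by
    intro k
    rw [lintegral_indicator_one (hA k), Measure.restrict_apply (hA k)]
    congr 1
    ext z
    simp only [Set.mem_ofPred_eq, mem_inter_iff]
    tauto
  simp only [h2]
  rw [← lintegral_tsum (fun k => (measurable_one.indicator (hA k)).aemeasurable)]
  have h3 : ∀ z ∈ H₁, ∑' k : ℤ, {z | z ∈ H₁ ∧ κ z ≤ k ∧ k < κ z + G}.indicator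
      (1 : Pl → ℝ≥0∞) z = G := by
    intro z hz
    rw [← tsum_age (κ z) G]
    refine tsum_congr fun k => ?_
    by_cases h : κ z ≤ k ∧ k < κ z + G
    · rw [if_pos h, indicator_of_mem (show z ∈ {z | z ∈ H₁ ∧ κ z ≤ k ∧ k < κ z + G} from ⟨hz, h⟩)]
      rfl
    · rw [if_neg h, indicator_of_notMem]
      intro h'
      exact h h'.2
  rw [setLIntegral_congr_fun hH h3, setLIntegral_const]

theorem hAGE (hEFB : Pool.Agent.Helper68.EP.StEFB) (hKPF : StKPF) (hSUR : StSUR) :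
    Pool.Agent.Helper68.ES.StAGE := by
  classical
  obtain ⟨C, hC, hS⟩ := hSUR
  refine ⟨C, hC, ?_⟩
  intro p CH E H H₁ u q G J sl fl D θ m D' ω hω hE hH hHE hH₁ hH₁H hD' hD hCH hθ hm hex
  obtain ⟨_, hmono, _, _, _⟩ := hEFB
  obtain ⟨hKap, hkp⟩ := hKPF H E D' D hH hE hHE hD' hD hex
  have hsur := hS p CH E H u q J sl fl D θ m D' ω hω hH hD' hCH
  obtain ⟨κ, hκ⟩ : ∃ κ, κ = kp H E D' D := ⟨_, rfl⟩
  rw [← hκ] at hKap hkp ⊢
  have hmeas : ∀ b : ℤ, MeasurableSet {z | z ∈ H₁ ∧ κ z ≤ b} := by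
    intro b
    have h1 : {z | z ∈ H₁ ∧ κ z ≤ b} = H₁ ∩ {z | z ∈ H ∧ κ z ≤ b} := by
      ext z
      simp only [Set.mem_ofPred_eq, mem_inter_iff]
      constructor
      · rintro ⟨h1, h2⟩
        exact ⟨h1, hH₁H h1, h2⟩
      · rintro ⟨h1, _, h2⟩
        exact ⟨h1, h2⟩
    rw [h1]
    exact hH₁.inter (hKap.1 b)
  have hAk : ∀ k : ℤ, MeasurableSet {z | z ∈ H₁ ∧ κ z ≤ k ∧ k < κ z + G} := by
    intro k
    have h1 : {z | z ∈ H₁ ∧ κ z ≤ k ∧ k < κ z + G} =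
        {z | z ∈ H₁ ∧ κ z ≤ k} \ {z | z ∈ H₁ ∧ κ z ≤ k - G} := by
      ext z
      simp only [Set.mem_ofPred_eq, mem_diff, not_and, not_le]
      constructor
      · rintro ⟨h1, h2, h3⟩
        exact ⟨⟨h1, h2⟩, fun _ => by omega⟩
      · rintro ⟨⟨h1, h2⟩, h3⟩
        exact ⟨h1, h2, by have := h3 h1; omega⟩
    rw [h1]
    exact (hmeas k).diff (hmeas _)
  have hRk : ∀ k : ℤ, MeasurableSet {z | z ∈ H₁ ∧ k < κ z + G} := by
    intro k
    have h1 : {z | z ∈ H₁ ∧ k < κ z + G} = H₁ \ {z | z ∈ H₁ ∧ κ z ≤ k - G} := by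
      ext z
      simp only [Set.mem_ofPred_eq, mem_diff, not_and, not_le]
      constructor
      · rintro ⟨h1, h3⟩
        exact ⟨h1, fun _ => by omega⟩
      · rintro ⟨h1, h3⟩
        exact ⟨h1, by have := h3 h1; omega⟩
    rw [h1]
    exact hH₁.diff (hmeas _)
  set c : ℝ≥0∞ := ENNReal.ofReal (35 / (m * θ)) with hc
  -- one scale, one direction
  have hone : ∀ (k : ℤ) (j : ℕ), ∫⁻ z in {z | z ∈ H₁ ∧ k < κ z + G}, ω k j z ≤
      (∫⁻ z in H \ Fb H D' k, ω k j z) +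
        c * volume {z | z ∈ H₁ ∧ κ z ≤ k ∧ k < κ z + G} := by
    intro k j
    have h1 : ∀ z ∈ {z | z ∈ H₁ ∧ k < κ z + G}, ω k j z ≤
        (H \ Fb H D' k).indicator (ω k j) z +
          {z | z ∈ H₁ ∧ κ z ≤ k ∧ k < κ z + G}.indicator (fun _ => c) z := by
      intro z hz
      by_cases h0 : ω k j z = 0
      · rw [h0]; exact zero_le
      by_cases h2 : z ∈ Fb H D' k
      · have h3 := (hω.supp k j z h0).2.1
        have h4 : z ∈ Fb E D (k - ag q) := h3.1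
        have h5 : z ∈ Fb E D k := by
          refine hmono E D D (k - ag q) k ?_ le_rfl h4
          have : 0 ≤ ag q := by
            unfold ag
            split_ifs <;> positivity
          omega
        have h6 : κ z ≤ k := (hkp z (hH₁H hz.1) k).2 ⟨h2, h5⟩
        rw [indicator_of_mem (show z ∈ {z | z ∈ H₁ ∧ κ z ≤ k ∧ k < κ z + G} from
          ⟨hz.1, h6, hz.2⟩)]
        exact (hω.le k j z).trans le_add_self
      · rw [indicator_of_mem (show z ∈ H \ Fb H D' k from ⟨hH₁H hz.1, h2⟩)]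
        exact le_self_add
    calc ∫⁻ z in {z | z ∈ H₁ ∧ k < κ z + G}, ω k j z
        ≤ ∫⁻ z in {z | z ∈ H₁ ∧ k < κ z + G}, ((H \ Fb H D' k).indicator (ω k j) z +
          {z | z ∈ H₁ ∧ κ z ≤ k ∧ k < κ z + G}.indicator (fun _ => c) z) :=
          setLIntegral_mono' (hRk k) h1
      _ ≤ ∫⁻ z, ((H \ Fb H D' k).indicator (ω k j) z +
          {z | z ∈ H₁ ∧ κ z ≤ k ∧ k < κ z + G}.indicator (fun _ => c) z) :=
          setLIntegral_le_lintegral _ _
      _ = (∫⁻ z, (H \ Fb H D' k).indicator (ω k j) z) +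
          ∫⁻ z, {z | z ∈ H₁ ∧ κ z ≤ k ∧ k < κ z + G}.indicator (fun _ => c) z :=
          lintegral_add_right _ (measurable_const.indicator (hAk k))
      _ ≤ (∫⁻ z in H \ Fb H D' k, ω k j z) +
          c * volume {z | z ∈ H₁ ∧ κ z ≤ k ∧ k < κ z + G} := by
          refine add_le_add (lintegral_indicator_le _ _) ?_
          exact (lintegral_indicator_const (hAk k) c).le
  unfold ch at hsur ⊢
  calc ENNReal.ofReal ((2 : ℝ) ^ (-(p * u))) *
        ∑' k : ℤ, ∑ j ∈ J, ∫⁻ z in {z | z ∈ H₁ ∧ k < κ z + G}, ω k j z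
      ≤ ENNReal.ofReal ((2 : ℝ) ^ (-(p * u))) *
        ∑' k : ℤ, ∑ j ∈ J, ((∫⁻ z in H \ Fb H D' k, ω k j z) +
        c * volume {z | z ∈ H₁ ∧ κ z ≤ k ∧ k < κ z + G}) := by
        gcongr with k j hj
        exact hone k j
    _ = ENNReal.ofReal ((2 : ℝ) ^ (-(p * u))) *
        ∑' k : ℤ, ∑ j ∈ J, (∫⁻ z in H \ Fb H D' k, ω k j z) +
        ENNReal.ofReal ((2 : ℝ) ^ (-(p * u))) * (J.card * (c * (G * volume H₁))) := by
        rw [← mul_add]
        congr 1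
        simp only [Finset.sum_add_distrib, Finset.sum_const, nsmul_eq_mul]
        rw [ENNReal.tsum_add]
        congr 1
        rw [ENNReal.tsum_mul_left, ENNReal.tsum_mul_left, count_age H₁ κ G hmeas hH₁]
    _ ≤ ENNReal.ofReal ((2 : ℝ) ^ (-(p * u)) * (C * CH / D')) * volume H +
        ENNReal.ofReal ((2 : ℝ) ^ (-(p * u)) * (G * J.card * (35 / (m * θ)))) * volume H₁ := by
        refine add_le_add hsur (le_of_eq ?_)
        have h2 : (0 : ℝ) ≤ (2 : ℝ) ^ (-(p * u)) := by positivity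
        rw [ENNReal.ofReal_mul h2, ENNReal.ofReal_mul (by positivity),
          ENNReal.ofReal_mul (by positivity), ENNReal.ofReal_natCast, ENNReal.ofReal_natCast, ← hc]
        ring

end Pool.Agent.Helper60.ES
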