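import Pool.Agent.Helper68.ES.St3

/-!
# Project ES (MP_cb927e_an), module OUT: the fattened set
-/

set_option autoImplicit false

open MeasureTheory Set Filter Topology
open scoped ENNReal RealInnerProductSpace

namespace Pool.Agent.Helper60.ES

open Pool.Agent.Helper68.ES Pool.Agent.Helper68.EP Pool.Agent.Helper20.RG
open Pool.Agent.Helper20.RL (RQ Rich BM Fml Hit)
open Pool.Agent.Helper68.LM (Pl BB Bd Av HL ft fm DQ)

namespace OUT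

/-- the square of index `t` -/
def S1 (t : ℤ × ℤ × ℤ) : Set Pl :=
  {y | ⌊y 0 / (2 : ℝ) ^ t.1⌋ = t.2.1 ∧ ⌊y 1 / (2 : ℝ) ^ t.1⌋ = t.2.2}

/-- the 25 squares around it -/
def S5 (t : ℤ × ℤ × ℤ) : Set Pl :=
  {y | |⌊y 0 / (2 : ℝ) ^ t.1⌋ - t.2.1| ≤ 2 ∧ |⌊y 1 / (2 : ℝ) ^ t.1⌋ - t.2.2| ≤ 2}

/-- the index of the square of `z` of side `2^b` -/
noncomputable def tt (b : ℤ) (z : Pl) : ℤ × ℤ × ℤ :=
  (b, ⌊z 0 / (2 : ℝ) ^ b⌋, ⌊z 1 / (2 : ℝ) ^ b⌋)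

theorem S1_tt (b : ℤ) (z : Pl) : S1 (tt b z) = DQ b z := by
  ext y
  simp only [S1, tt, DQ, Set.mem_ofPred_eq, Fin.forall_fin_two]

theorem S5_tt (b : ℤ) (z : Pl) : S5 (tt b z) = DQ5 b z := rfl

theorem floor_div_pow (x : ℝ) (n : ℕ) : ⌊x / (2 : ℝ) ^ n⌋ = ⌊x⌋ / 2 ^ n := by
  have h2 : (0 : ℝ) < 2 ^ n := by positivity
  have h2' : (0 : ℤ) < 2 ^ n := by positivity
  apply le_antisymm
  · rw [Int.le_ediv_iff_mul_le h2', Int.le_floor]
    have h1 := Int.floor_le (x / (2 : ℝ) ^ n)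
    rw [le_div_iff₀ h2] at h1
    push_cast
    exact h1
  · rw [Int.le_floor, le_div_iff₀ h2]
    have h1 : ⌊x⌋ / 2 ^ n * 2 ^ n ≤ ⌊x⌋ := Int.ediv_mul_le _ h2'.ne'
    have h3 : ((⌊x⌋ / 2 ^ n * 2 ^ n : ℤ) : ℝ) ≤ (⌊x⌋ : ℝ) := by exact_mod_cast h1
    push_cast at h3 ⊢
    exact h3.trans (Int.floor_le x)

theorem floor_scale (x : ℝ) (b b' : ℤ) (h : b ≤ b') :
    ⌊x / (2 : ℝ) ^ b'⌋ = ⌊x / (2 : ℝ) ^ b⌋ / 2 ^ (b' - b).toNat := by
  rw [← floor_div_pow, div_div]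
  congr 2
  have h1 : b' = b + ((b' - b).toNat : ℤ) := by omega
  conv_lhs => rw [h1]
  rw [zpow_add₀ (by norm_num), zpow_natCast]

theorem ediv_close (m m' : ℤ) (n : ℕ) (h : |m - m'| ≤ 2) : |m / 2 ^ n - m' / 2 ^ n| ≤ 2 := by
  have h2 : (0 : ℤ) < 2 ^ n := by positivity
  rw [abs_le] at h ⊢
  have h1 : (1 : ℤ) ≤ 2 ^ n := h2
  have e1 : m / 2 ^ n ≤ m' / 2 ^ n + 2 := by
    have : m ≤ m' + 2 * 2 ^ n := by linarith
    calc m / 2 ^ n ≤ (m' + 2 * 2 ^ n) / 2 ^ n := Int.ediv_le_ediv h2 this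
      _ = m' / 2 ^ n + 2 := Int.add_mul_ediv_right _ _ h2.ne'
  have e2 : m' / 2 ^ n ≤ m / 2 ^ n + 2 := by
    have : m' ≤ m + 2 * 2 ^ n := by linarith
    calc m' / 2 ^ n ≤ (m + 2 * 2 ^ n) / 2 ^ n := Int.ediv_le_ediv h2 this
      _ = m / 2 ^ n + 2 := Int.add_mul_ediv_right _ _ h2.ne'
  constructor <;> linarith

theorem ediv_close1 (m m' : ℤ) (n : ℕ) (hn : 2 ≤ n) (h : |m - m'| ≤ 2) :
    |m / 2 ^ n - m' / 2 ^ n| ≤ 1 := by
  have h2 : (0 : ℤ) < 2 ^ n := by positivity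
  rw [abs_le] at h ⊢
  have h1 : (2 : ℤ) ≤ 2 ^ n := by
    calc (2 : ℤ) ≤ 2 ^ 2 := by norm_num
      _ ≤ 2 ^ n := pow_le_pow_right₀ (by norm_num) hn
  have e1 : m / 2 ^ n ≤ m' / 2 ^ n + 1 := by
    have : m ≤ m' + 1 * 2 ^ n := by linarith
    calc m / 2 ^ n ≤ (m' + 1 * 2 ^ n) / 2 ^ n := Int.ediv_le_ediv h2 this
      _ = m' / 2 ^ n + 1 := Int.add_mul_ediv_right _ _ h2.ne'
  have e2 : m' / 2 ^ n ≤ m / 2 ^ n + 1 := by
    have : m' ≤ m + 1 * 2 ^ n := by linarith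
    calc m' / 2 ^ n ≤ (m + 1 * 2 ^ n) / 2 ^ n := Int.ediv_le_ediv h2 this
      _ = m / 2 ^ n + 1 := Int.add_mul_ediv_right _ _ h2.ne'
  constructor <;> linarith

/-- nesting -/
theorem nest (t t' : ℤ × ℤ × ℤ) (h : t.1 ≤ t'.1) (hn : (S1 t ∩ S1 t').Nonempty) :
    S1 t ⊆ S1 t' ∧ S5 t ⊆ S5 t' := by
  obtain ⟨y, ⟨h1, h2⟩, ⟨h3, h4⟩⟩ := hn
  rw [floor_scale _ _ _ h, h1] at h3
  rw [floor_scale _ _ _ h, h2] at h4
  constructor
  · rintro x ⟨e1, e2⟩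
    refine ⟨?_, ?_⟩
    · rw [floor_scale _ _ _ h, e1, h3]
    · rw [floor_scale _ _ _ h, e2, h4]
  · rintro x ⟨e1, e2⟩
    refine ⟨?_, ?_⟩
    · rw [floor_scale _ _ _ h, ← h3]
      exact ediv_close _ _ _ e1
    · rw [floor_scale _ _ _ h, ← h4]
      exact ediv_close _ _ _ e2

theorem meas_floor (b : ℤ) :
    Measurable (fun y : Pl => (⌊y 0 / (2 : ℝ) ^ b⌋, ⌊y 1 / (2 : ℝ) ^ b⌋)) := by
  have h : ∀ i : Fin 2, Measurable (fun y : Pl => ⌊y i / (2 : ℝ) ^ b⌋) := by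
    intro i
    have h1 : Measurable (fun y : Pl => y i / (2 : ℝ) ^ b) := by fun_prop
    exact h1.floor
  exact (h 0).prodMk (h 1)

theorem meas_S1 (t : ℤ × ℤ × ℤ) : MeasurableSet (S1 t) :=
  meas_floor t.1 (MeasurableSet.of_discrete (s := {q : ℤ × ℤ | q.1 = t.2.1 ∧ q.2 = t.2.2}))

theorem meas_S5 (t : ℤ × ℤ × ℤ) : MeasurableSet (S5 t) :=
  meas_floor t.1 (MeasurableSet.of_discrete
    (s := {q : ℤ × ℤ | |q.1 - t.2.1| ≤ 2 ∧ |q.2 - t.2.2| ≤ 2}))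

/-- the 25 squares -/
theorem S5_subset (t : ℤ × ℤ × ℤ) : S5 t ⊆ ⋃ q ∈ (Finset.Icc (-2 : ℤ) 2 ×ˢ Finset.Icc (-2 : ℤ) 2),
    S1 (t.1, t.2.1 + q.1, t.2.2 + q.2) := by
  rintro x ⟨h1, h2⟩
  rw [abs_le] at h1 h2
  rw [mem_iUnion₂]
  refine ⟨(⌊x 0 / (2 : ℝ) ^ t.1⌋ - t.2.1, ⌊x 1 / (2 : ℝ) ^ t.1⌋ - t.2.2), ?_, ?_, ?_⟩
  · rw [Finset.mem_product, Finset.mem_Icc, Finset.mem_Icc]
    exact ⟨h1, h2⟩
  · simp
  · simp

theorem card25 : (Finset.Icc (-2 : ℤ) 2 ×ˢ Finset.Icc (-2 : ℤ) 2).card = 25 := by decide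

/-- a set with measure at most `c` in each of the squares -/
theorem vol_S5 (F : Set Pl) (t : ℤ × ℤ × ℤ) (c : ℝ≥0∞)
    (h : ∀ t' : ℤ × ℤ × ℤ, t'.1 = t.1 → volume (F ∩ S1 t') ≤ c) :
    volume (F ∩ S5 t) ≤ 25 * c := by
  calc volume (F ∩ S5 t)
      ≤ volume (⋃ q ∈ (Finset.Icc (-2 : ℤ) 2 ×ˢ Finset.Icc (-2 : ℤ) 2),
        F ∩ S1 (t.1, t.2.1 + q.1, t.2.2 + q.2)) := by
        apply measure_mono
        rw [← inter_iUnion₂]
        exact inter_subset_inter_right _ (S5_subset t)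
    _ ≤ ∑ q ∈ (Finset.Icc (-2 : ℤ) 2 ×ˢ Finset.Icc (-2 : ℤ) 2),
        volume (F ∩ S1 (t.1, t.2.1 + q.1, t.2.2 + q.2)) := measure_biUnion_finset_le _ _
    _ ≤ ∑ _q ∈ (Finset.Icc (-2 : ℤ) 2 ×ˢ Finset.Icc (-2 : ℤ) 2), c :=
        Finset.sum_le_sum fun q _ => h _ rfl
    _ = 25 * c := by rw [Finset.sum_const, card25, nsmul_eq_mul]; norm_num

theorem eq_tt {t : ℤ × ℤ × ℤ} {z : Pl} (h : z ∈ S1 t) : t = tt t.1 z := by
  obtain ⟨h1, h2⟩ := h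
  unfold tt
  rw [h1, h2]

theorem norm_le_pl (v : Pl) (r : ℝ) (h0 : |v 0| ≤ r) (h1 : |v 1| ≤ r) : ‖v‖ ≤ 2 * r := by
  have hr : 0 ≤ r := (abs_nonneg _).trans h0
  rw [EuclideanSpace.norm_eq, Fin.sum_univ_two]
  apply Real.sqrt_le_iff.2
  constructor
  · positivity
  · have e0 : ‖v 0‖ ^ 2 ≤ r ^ 2 := pow_le_pow_left₀ (norm_nonneg _) h0 2
    have e1 : ‖v 1‖ ^ 2 ≤ r ^ 2 := pow_le_pow_left₀ (norm_nonneg _) h1 2
    nlinarith

theorem close_of_floor (a c w : ℝ) (hw : 0 < w) (h : |⌊a / w⌋ - ⌊c / w⌋| ≤ 2) :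
    |a - c| ≤ 3 * w := by
  rw [abs_le] at h
  have h1 := Int.floor_le (a / w)
  have h2 := Int.lt_floor_add_one (a / w)
  have h3 := Int.floor_le (c / w)
  have h4 := Int.lt_floor_add_one (c / w)
  have h5 : (-2 : ℝ) ≤ (⌊a / w⌋ : ℝ) - ⌊c / w⌋ := by exact_mod_cast h.1
  have h6 : (⌊a / w⌋ : ℝ) - ⌊c / w⌋ ≤ 2 := by exact_mod_cast h.2
  have h7 : |a / w - c / w| ≤ 3 := by
    rw [abs_le]
    constructor <;> linarith
  rw [← sub_div, abs_div, abs_of_pos hw, div_le_iff₀ hw] at h7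
  exact h7

end OUT

open OUT

theorem hOUT (hEQ : Pool.Agent.Helper68.EP.StEQ) (hLGR : Pool.Agent.Helper20.RL.StLGR) :
    Pool.Agent.Helper68.ES.StOUT := by
  classical
  intro F R b₁ d₀ D₂ hF hR hd₀ hD₂ hRb hdense hD
  obtain ⟨hEQ1, _, _, _, _, _⟩ := hEQ
  obtain ⟨hL1, _, _, _, _⟩ := hLGR
  -- area of a square
  have hvol1 : ∀ t : ℤ × ℤ × ℤ, volume (S1 t) ≤ ENNReal.ofReal ((4 : ℝ) ^ t.1) := by
    intro t
    rcases (S1 t).eq_empty_or_nonempty with h | ⟨z, hz⟩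
    · rw [h, measure_empty]; exact zero_le
    · have h1 : S1 t = RQ 0 t.1 t.1 z := by
        conv_lhs => rw [eq_tt hz]
        rw [S1_tt]
        exact (hEQ1 t.1 z).2.2.2
      rw [h1, (hL1 0 t.1 t.1 z).2.1]
      apply ENNReal.ofReal_le_ofReal
      have h2 : (4 : ℝ) ^ t.1 = (2 : ℝ) ^ (t.1 + t.1) := by
        rw [zpow_add₀ (by norm_num), ← mul_zpow]; norm_num
      rw [h2]
  have hvol5 : ∀ t : ℤ × ℤ × ℤ, volume (S5 t) ≤ 25 * ENNReal.ofReal ((4 : ℝ) ^ t.1) := by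
    intro t
    have h := vol_S5 univ t (ENNReal.ofReal ((4 : ℝ) ^ t.1)) (fun t' ht' => by
      rw [univ_inter, ← ht']; exact hvol1 t')
    rwa [univ_inter] at h
  -- indices
  set T : Set (ℤ × ℤ × ℤ) := {t | ∃ z ∈ F, t = tt (R z) z} with hT
  set Tm : Set (ℤ × ℤ × ℤ) := {t | t ∈ T ∧ ∀ t' ∈ T, (S1 t ∩ S1 t').Nonempty → t'.1 ≤ t.1} with hTm
  have hTb : ∀ t ∈ T, t.1 + 2 ≤ b₁ := by
    rintro t ⟨z, hz, rfl⟩
    exact hRb z hz
  have hTdense : ∀ t ∈ T, ENNReal.ofReal (d₀ * (4 : ℝ) ^ t.1) ≤ volume (F ∩ S1 t) := by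
    rintro t ⟨z, hz, rfl⟩
    rw [S1_tt]
    exact (hdense z hz).le
  have hmax : ∀ t ∈ T, ∃ t' ∈ Tm, S1 t ⊆ S1 t' ∧ S5 t ⊆ S5 t' := by
    intro t ht
    have htne : (S1 t).Nonempty := by
      obtain ⟨z, hz, rfl⟩ := ht
      rw [S1_tt]
      exact ⟨z, fun i => rfl⟩
    obtain ⟨B, ⟨t', ht'T, ht'n, htt', hB⟩, hBmax⟩ := Int.exists_greatest_of_bdd
      (P := fun B : ℤ => ∃ t' ∈ T, (S1 t ∩ S1 t').Nonempty ∧ t.1 ≤ t'.1 ∧ t'.1 = B)
      ⟨b₁, by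
        rintro B ⟨t', ht', _, _, rfl⟩
        have := hTb t' ht'
        omega⟩
      ⟨t.1, t, ht, by rwa [inter_self], le_rfl, rfl⟩
    have hn := nest t t' htt' ht'n
    refine ⟨t', ⟨ht'T, ?_⟩, hn⟩
    intro t'' ht'' hne
    by_contra hcon
    rw [not_le] at hcon
    have h1 := nest t' t'' hcon.le hne
    have h2 := hBmax t''.1 ⟨t'', ht'', ?_, by omega, rfl⟩
    · omega
    · obtain ⟨z, hz⟩ := htne
      exact ⟨z, hz, h1.1 (hn.1 hz)⟩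
  have hdisj : ∀ t ∈ Tm, ∀ t' ∈ Tm, t ≠ t' → Disjoint (S1 t) (S1 t') := by
    intro t ht t' ht' hne
    rw [Set.disjoint_iff_inter_eq_empty]
    by_contra hcon
    have hnon : (S1 t ∩ S1 t').Nonempty := nonempty_iff_ne_empty.2 hcon
    have h1 := ht.2 t' ht'.1 hnon
    have h2 := ht'.2 t ht.1 (by rwa [inter_comm])
    have h3 : t.1 = t'.1 := le_antisymm h2 h1
    obtain ⟨y, hy, hy'⟩ := hnon
    apply hne
    rw [eq_tt hy, eq_tt hy', h3]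
  -- the main estimate
  have hmain : ∀ (T' : Set (ℤ × ℤ × ℤ)) (G : Set Pl), T' ⊆ Tm → (∀ t ∈ T', S1 t ⊆ G) →
      volume (⋃ t ∈ T', S5 t) ≤ ENNReal.ofReal (25 / d₀) * volume (F ∩ G) := by
    intro T' G hT' hG
    have hone : ∀ t ∈ T', volume (S5 t) ≤ ENNReal.ofReal (25 / d₀) * volume (F ∩ S1 t) := by
      intro t ht
      calc volume (S5 t) ≤ 25 * ENNReal.ofReal ((4 : ℝ) ^ t.1) := hvol5 t
        _ = ENNReal.ofReal (25 / d₀) * ENNReal.ofReal (d₀ * (4 : ℝ) ^ t.1) := by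
          rw [← ENNReal.ofReal_mul (by positivity)]
          have h1 : 25 / d₀ * (d₀ * (4 : ℝ) ^ t.1) = 25 * (4 : ℝ) ^ t.1 := by field_simp
          rw [h1, ENNReal.ofReal_mul (by norm_num)]
          congr 1
          norm_num
        _ ≤ ENNReal.ofReal (25 / d₀) * volume (F ∩ S1 t) := by
          gcongr
          exact hTdense t (hT' ht).1
    haveI : Countable T' := T'.to_countable.to_subtype
    calc volume (⋃ t ∈ T', S5 t) = volume (⋃ t : T', S5 t) := by rw [biUnion_eq_iUnion]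
      _ ≤ ∑' t : T', volume (S5 t) := measure_iUnion_le _
      _ ≤ ∑' t : T', ENNReal.ofReal (25 / d₀) * volume (F ∩ S1 t) :=
          ENNReal.tsum_le_tsum fun t => hone t t.2
      _ = ENNReal.ofReal (25 / d₀) * ∑' t : T', volume (F ∩ S1 t) := ENNReal.tsum_mul_left
      _ = ENNReal.ofReal (25 / d₀) * volume (⋃ t : T', F ∩ S1 t) := by
          congr 1
          rw [measure_iUnion]
          · intro t t' hne
            have h1 := hdisj t (hT' t.2) t' (hT' t'.2) (fun h => hne (Subtype.ext h))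
            exact h1.mono inter_subset_right inter_subset_right
          · intro t
            exact hF.1.inter (meas_S1 _)
      _ ≤ ENNReal.ofReal (25 / d₀) * volume (F ∩ G) := by
          gcongr
          refine iUnion_subset fun t => ?_
          exact inter_subset_inter_right _ (hG t t.2)
  -- the fattened set
  have hK : Ft F R = ⋃ t ∈ T, S5 t := by
    ext x
    simp only [mem_iUnion, exists_prop]
    constructor
    · rintro ⟨z, hz, hx⟩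
      exact ⟨tt (R z) z, ⟨z, hz, rfl⟩, hx⟩
    · rintro ⟨t, ⟨z, hz, rfl⟩, hx⟩
      exact ⟨z, hz, hx⟩
  have hKm : Ft F R ⊆ ⋃ t ∈ Tm, S5 t := by
    rw [hK]
    refine iUnion₂_subset fun t ht => ?_
    obtain ⟨t', ht', _, h5⟩ := hmax t ht
    exact h5.trans (subset_biUnion_of_mem (u := fun t => S5 t) ht')
  refine ⟨⟨?_, ?_⟩, ?_, ?_, ?_⟩
  · -- measurable
    rw [hK]
    exact MeasurableSet.biUnion T.to_countable fun t _ => meas_S5 t
  · -- bounded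
    obtain ⟨ρ, hρ⟩ := hF.2.subset_closedBall 0
    refine (Metric.isBounded_closedBall (x := (0 : Pl)) (r := ρ + 2 * (3 * (2 : ℝ) ^ b₁))).subset ?_
    rintro x ⟨z, hz, hx⟩
    have h1 : ‖z‖ ≤ ρ := by
      have := hρ hz
      rwa [mem_closedBall_zero_iff] at this
    have h2 : (2 : ℝ) ^ (R z) ≤ (2 : ℝ) ^ b₁ := by
      apply zpow_le_zpow_right₀ (by norm_num)
      have := hRb z hz
      omega
    have hp : (0 : ℝ) < (2 : ℝ) ^ (R z) := by positivity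
    have h3 : ‖x - z‖ ≤ 2 * (3 * (2 : ℝ) ^ b₁) := by
      apply norm_le_pl
      · have := close_of_floor (x 0) (z 0) _ hp hx.1
        have e : (x - z) 0 = x 0 - z 0 := rfl
        rw [e]
        linarith
      · have := close_of_floor (x 1) (z 1) _ hp hx.2
        have e : (x - z) 1 = x 1 - z 1 := rfl
        rw [e]
        linarith
    rw [mem_closedBall_zero_iff]
    calc ‖x‖ = ‖z + (x - z)‖ := by congr 1; abel
      _ ≤ ‖z‖ + ‖x - z‖ := norm_add_le _ _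
      _ ≤ ρ + 2 * (3 * (2 : ℝ) ^ b₁) := add_le_add h1 h3
  · -- contains `F`
    intro z hz
    refine ⟨z, hz, ?_, ?_⟩ <;> simp
  · -- the area
    have h1 := hmain Tm univ subset_rfl (fun t _ => subset_univ _)
    rw [inter_univ] at h1
    exact (measure_mono hKm).trans h1
  · -- the density
    intro x _ b hb
    set T' : Set (ℤ × ℤ × ℤ) := {t | t ∈ Tm ∧ (S5 t ∩ DQ3 b x).Nonempty} with hT'
    have hsub : Ft F R ∩ DQ3 b x ⊆ ⋃ t ∈ T', S5 t := by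
      rintro y ⟨hy, hy3⟩
      have h1 := hKm hy
      rw [mem_iUnion₂] at h1 ⊢
      obtain ⟨t, ht, hyt⟩ := h1
      exact ⟨t, ⟨ht, ⟨y, hyt, hy3⟩⟩, hyt⟩
    have hG : ∀ t ∈ T', S1 t ⊆ DQ5 b x := by
      rintro t ⟨ht, y, hy5, hy3⟩ z hz
      have htb := hTb t ht.1
      have hle : t.1 ≤ b := by omega
      have hn : 2 ≤ (b - t.1).toNat := by omega
      refine ⟨?_, ?_⟩
      · have e1 := ediv_close1 _ _ _ hn hy5.1
        rw [← floor_scale _ _ _ hle] at e1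
        have e2 := hy3.1
        rw [floor_scale (z 0) _ _ hle, hz.1]
        rw [abs_le] at e1 e2 ⊢
        constructor <;> linarith
      · have e1 := ediv_close1 _ _ _ hn hy5.2
        rw [← floor_scale _ _ _ hle] at e1
        have e2 := hy3.2
        rw [floor_scale (z 1) _ _ hle, hz.2]
        rw [abs_le] at e1 e2 ⊢
        constructor <;> linarith
    have h1 := hmain T' (DQ5 b x) (fun t ht => ht.1) hG
    have h2 : volume (F ∩ DQ5 b x) ≤ 25 * ENNReal.ofReal (D₂ * (4 : ℝ) ^ b) := by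
      rw [← S5_tt]
      apply vol_S5
      intro t' ht'
      rcases (F ∩ S1 t').eq_empty_or_nonempty with h | ⟨z, hzF, hz⟩
      · rw [h, measure_empty]; exact zero_le
      · rw [eq_tt hz, ht', S1_tt]
        exact hD z hzF b hb
    calc volume (Ft F R ∩ DQ3 b x) ≤ volume (⋃ t ∈ T', S5 t) := measure_mono hsub
      _ ≤ ENNReal.ofReal (25 / d₀) * volume (F ∩ DQ5 b x) := h1
      _ ≤ ENNReal.ofReal (25 / d₀) * (25 * ENNReal.ofReal (D₂ * (4 : ℝ) ^ b)) := by gcongr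
      _ = ENNReal.ofReal (625 * D₂ / d₀ * (4 : ℝ) ^ b) := by
        have e1 : (25 : ℝ≥0∞) = ENNReal.ofReal 25 := by norm_num
        rw [e1, ← ENNReal.ofReal_mul (by norm_num), ← ENNReal.ofReal_mul (by positivity)]
        congr 1
        field_simp
        ring

end Pool.Agent.Helper60.ES
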